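import Pool.Agent.Helper408_CIS.Chordal

/-!
# Recognizing CIS graphs is coNP-complete, even for weakly chordal graphs

The input is a finite simple graph, given by an adjacency matrix `M : List (List Bool)`
(`matGraph M` is the graph).  A graph is CIS when every maximal clique meets every maximal stable
set (`IsCIS`), and weakly chordal when neither it nor its complement has an induced cycle with five
or more vertices (`WeaklyChordal`; such graphs are perfect).

Recognizing CIS graphs is in `coNP`, and every problem in `coNP` has a polynomial-time many-one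
reduction to it all of whose values are weakly chordal graphs; moreover the graphs produced for
no-instances are not even triangle graphs, so that the same holds for every class between CIS graphs
and triangle graphs.
-/

set_option autoImplicit false

namespace Pool.Agent.Results.MP_bb030f_lc.WeaklyChordalCoNPComplete

open Pool.Agent.NPC Pool.Agent.H622R2 Pool.Agent.H609R2 Pool.Agent.H495R3 Pool.Agent.Y602
  Pool.Agent.Helper408_CIS

theorem result :
    -- membership in `coNP`
    InCoNPP (fun M : List (List Bool) => IsCIS (matGraph M)) ∧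
    -- hardness for `coNP` on weakly chordal graphs
    ∀ L : Set (List Bool), InCoNP L → ∃ f : List Bool → List (List Bool),
      PolyTime (fun x => bits (f x)) ∧
      (∀ x, f x ≠ [] ∧ WeaklyChordal (matGraph (f x))) ∧
      (∀ x, x ∈ L ↔ IsCIS (matGraph (f x))) ∧
      (∀ x, x ∉ L → ¬ IsTriangleGraph (matGraph (f x))) := by
  refine ⟨inCoNP_cis, fun L hL => ?_⟩
  obtain ⟨g, hg, hg1, hg2⟩ := hardPr_SAT3b _ hL
  refine ⟨fun x => eqRed (g x), ?_, fun x => ⟨?_, weaklyChordal_eqRed _⟩, fun x => ?_,
    fun x hx => ?_⟩
  · exact PC.toPolyTime (PC.comp (g := eqRed) (f := g) eqRed_poly hg)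
  · intro h
    obtain ⟨⟨i, hi⟩⟩ := eqRed_nonempty (g x)
    have h' : eqRed (g x) = [] := h
    rw [h'] at hi
    simp at hi
  · obtain ⟨h1, h2, h3⟩ := hg1 x
    have e1 := hg2 x
    have e2 := eqRed_cis h1 h2 h3
    rw [Set.mem_compl_iff] at e1
    tauto
  · obtain ⟨h1, h2, h3⟩ := hg1 x
    exact (eqRed_triangle h1 h2 h3).1 ((hg2 x).1 hx)

end Pool.Agent.Results.MP_bb030f_lc.WeaklyChordalCoNPComplete
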